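import Pool.Agent.Helper630.Szego.Kernel

open Finset MeasureTheory Filter Topology Complex

namespace Pool.Agent.Helper630.Szego

open scoped ENNReal
open MeasureTheory.VectorMeasure

variable {N M : Type*} [NormedAddCommGroup N] [InnerProductSpace ℂ N] [CompleteSpace N]
  [NormedAddCommGroup M] [InnerProductSpace ℂ M] [CompleteSpace M]

/-- mass of small balls -/
lemma ball_mass {F : ℂ → N →L[ℂ] N} {σ : VectorMeasure TT (N →L[ℂ] N)} (hF : IsHerglotz F σ)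
    [IsFiniteMeasure (VectorMeasure.variation (V := N →L[ℂ] N) σ)] (ξ : N)
    (μ : Measure TT) [IsFiniteMeasure μ] (hμ : μ = qm (V := N →L[ℂ] N) σ (qf ξ) (fun Δ => qf_nonneg ξ (hF.1 Δ)))
    {C : ℝ} (hC : 0 ≤ C) (θ₀ : TT) (hb : ∀ r : ℝ, 0 < r → r < 1 → ‖F (r * pt θ₀)‖ ≤ C) {d : ℝ} (hd0 : 0 < d) (hd : d ≤ 1 / 2) :
    μ (Metric.closedBall θ₀ d) ≤ ENNReal.ofReal (8 * Real.pi * (C * ‖ξ‖ ^ 2) * d) := by
  set z : ℂ := ((1 - d : ℝ) : ℂ) * pt θ₀ with hz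
  have hzn : ‖z‖ = 1 - d := by
    rw [hz, norm_mul, pt_norm, mul_one, Complex.norm_real, Real.norm_of_nonneg (by linarith)]
  have hz1 : ‖z‖ < 1 := by rw [hzn]; linarith
  have h1 := hF.2 z (mem_ball_zero_iff.2 hz1)
  have h2 := qf_integral ξ σ hF.1 (kernel_integrable hz1 (VectorMeasure.variation (V := N →L[ℂ] N) σ))
  rw [← hμ] at h2
  have h3 : qf ξ (F z) = (2 * Real.pi)⁻¹ * ∫ θ, ((pt θ + z) / (pt θ - z)).re ∂μ := by
    rw [h1, _root_.map_smul, h2, smul_eq_mul]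
  have h4 : qf ξ (F z) ≤ C * ‖ξ‖ ^ 2 := by
    refine (qf_le ξ _).trans ?_
    gcongr
    exact hb (1 - d) (by linarith) (by linarith)
  have h5 : (4 * d)⁻¹ * μ.real (Metric.closedBall θ₀ d) ≤ ∫ θ, ((pt θ + z) / (pt θ - z)).re ∂μ := by
    have hint : Integrable (fun θ => ((pt θ + z) / (pt θ - z)).re) μ := (kernel_integrable hz1 μ).re
    have h6 : ∫ θ in Metric.closedBall θ₀ d, ((pt θ + z) / (pt θ - z)).re ∂μ ≤ ∫ θ, ((pt θ + z) / (pt θ - z)).re ∂μ := by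
      refine setIntegral_le_integral hint (ae_of_all _ fun θ => ?_)
      simp only [Pi.zero_apply]
      rw [kernel_re _ _ (pt_norm θ)]
      have : 0 ≤ 1 - ‖z‖ ^ 2 := by nlinarith [norm_nonneg z]
      positivity
    refine le_trans ?_ h6
    have h7 : ∫ θ in Metric.closedBall θ₀ d, (4 * d)⁻¹ ∂μ = (4 * d)⁻¹ * μ.real (Metric.closedBall θ₀ d) := by
      rw [MeasureTheory.setIntegral_const, smul_eq_mul]; ring
    rw [← h7]
    refine setIntegral_mono_on (integrable_const _).integrableOn hint.integrableOn Metric.isClosed_closedBall.measurableSet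
      fun θ hθ => ?_
    rw [kernel_re _ _ (pt_norm θ)]
    have h8 : ‖pt θ - z‖ ≤ 2 * d := by
      have e : pt θ - z = (pt θ - pt θ₀) + (d : ℂ) * pt θ₀ := by
        rw [hz]; push_cast; ring
      rw [e]
      refine (norm_add_le _ _).trans ?_
      rw [norm_mul, pt_norm, mul_one, Complex.norm_real, Real.norm_of_nonneg hd0.le]
      have := (pt_dist θ θ₀).trans (Metric.mem_closedBall.1 hθ)
      linarith
    have h9 : 0 < ‖pt θ - z‖ := norm_pos_iff.2 (pt_sub_ne hz1 θ)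
    rw [inv_eq_one_div, div_le_div_iff₀ (by positivity) (by positivity), hzn]
    have h10 : ‖pt θ - z‖ ^ 2 ≤ (2 * d) ^ 2 := by gcongr
    nlinarith [mul_pos hd0 hd0]
  have h6 : μ.real (Metric.closedBall θ₀ d) ≤ 8 * Real.pi * (C * ‖ξ‖ ^ 2) * d := by
    have hp := Real.pi_pos
    have h7 : ∫ θ, ((pt θ + z) / (pt θ - z)).re ∂μ ≤ 2 * Real.pi * (C * ‖ξ‖ ^ 2) := by
      rw [h3] at h4
      rw [inv_mul_le_iff₀ (by positivity)] at h4
      exact h4
    have h8 := h5.trans h7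
    rw [inv_mul_le_iff₀ (by positivity)] at h8
    calc μ.real (Metric.closedBall θ₀ d) ≤ 4 * d * (2 * Real.pi * (C * ‖ξ‖ ^ 2)) := h8
      _ = _ := by ring
  rw [← ENNReal.ofReal_toReal (measure_ne_top μ (Metric.closedBall θ₀ d))]
  exact ENNReal.ofReal_le_ofReal h6

/-- measure comparison with the Hausdorff measure -/
lemma restrict_le_hausdorff (μ : Measure TT) [IsFiniteMeasure μ] (A : Set TT) (hA : MeasurableSet A) {K : ℝ} (hK : 0 < K)
    (h : ∀ θ₀ ∈ A, ∀ d : ℝ, 0 < d → d ≤ 1 / 2 → μ (Metric.closedBall θ₀ d) ≤ ENNReal.ofReal (K * d)) {Δ : Set TT}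
    (hΔ : MeasurableSet Δ) (h0 : volume Δ = 0) : μ (Δ ∩ A) = 0 := by
  have hKe : ENNReal.ofReal K ≠ 0 := by simpa using hK
  have key : (ENNReal.ofReal K)⁻¹ • μ.restrict A ≤ μH[1] := by
    refine Measure.le_hausdorffMeasure 1 _ (ENNReal.ofReal (1 / 2)) (by simp) fun s hs => ?_
    rw [Measure.smul_apply, Measure.restrict_apply' hA, smul_eq_mul, ENNReal.rpow_one]
    rcases (s ∩ A).eq_empty_or_nonempty with he | ⟨θ₀, hθ₀⟩
    · rw [he]; simp
    · have hdtop : Metric.ediam s ≠ ∞ := ne_top_of_le_ne_top ENNReal.ofReal_ne_top hs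
      have hsub : ∀ d : ℝ, Metric.ediam s ≤ ENNReal.ofReal d → 0 ≤ d → s ∩ A ⊆ Metric.closedBall θ₀ d := by
        intro d hd hd0 θ hθ
        rw [Metric.mem_closedBall, ← ENNReal.ofReal_le_ofReal_iff hd0, ← edist_dist]
        exact (Metric.edist_le_ediam_of_mem hθ.1 hθ₀.1).trans hd
      rw [ENNReal.inv_mul_le_iff hKe ENNReal.ofReal_ne_top]
      by_cases hz : Metric.ediam s = 0
      · rw [hz, mul_zero]
        have h1 : ∀ d : ℝ, 0 < d → d ≤ 1 / 2 → μ (s ∩ A) ≤ ENNReal.ofReal (K * d) := by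
          intro d hd0 hd
          refine (measure_mono (hsub d ?_ hd0.le)).trans (h θ₀ hθ₀.2 d hd0 hd)
          rw [hz]; exact bot_le
        have h2 : Tendsto (fun d : ℝ => ENNReal.ofReal (K * d)) (𝓝[>] 0) (𝓝 0) := by
          have : Tendsto (fun d : ℝ => ENNReal.ofReal (K * d)) (𝓝 0) (𝓝 (ENNReal.ofReal (K * 0))) :=
            (ENNReal.continuous_ofReal.comp (continuous_const.mul continuous_id)).tendsto 0
          rw [mul_zero, ENNReal.ofReal_zero] at this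
          exact this.mono_left nhdsWithin_le_nhds
        refine ge_of_tendsto h2 ?_
        have h3 : ∀ᶠ d : ℝ in 𝓝[>] 0, d < 1 / 2 := mem_nhdsWithin_of_mem_nhds (gt_mem_nhds (by norm_num))
        filter_upwards [self_mem_nhdsWithin, h3] with d hd0 hd
        exact h1 d hd0 hd.le
      · set d := (Metric.ediam s).toReal with hd
        have hde : ENNReal.ofReal d = Metric.ediam s := ENNReal.ofReal_toReal hdtop
        have hd0 : 0 < d := ENNReal.toReal_pos hz hdtop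
        have hd1 : d ≤ 1 / 2 := by
          rw [← hde] at hs
          exact (ENNReal.ofReal_le_ofReal_iff (by norm_num)).1 hs
        refine (measure_mono (hsub d hde.ge hd0.le)).trans ((h θ₀ hθ₀.2 d hd0 hd1).trans ?_)
        rw [ENNReal.ofReal_mul hK.le, hde]
  have h1 := key Δ
  rw [volume_null_hausdorff hΔ h0, Measure.smul_apply, Measure.restrict_apply hΔ, smul_eq_mul] at h1
  have h2 := le_antisymm h1 bot_le
  rcases mul_eq_zero.1 h2 with h3 | h3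
  · exact absurd h3 (ENNReal.inv_ne_zero.2 ENNReal.ofReal_ne_top)
  · exact h3

theorem ac_main [Nontrivial N] {F : ℂ → N →L[ℂ] N} {σ : VectorMeasure TT (N →L[ℂ] N)} (hF : IsHerglotz F σ)
    (h0 : F 0 = 1) (A : ℕ → Set TT) (hA : ∀ n, MeasurableSet (A n)) (hcov : ∀ θ, ∃ n, θ ∈ A n) (C : ℕ → ℝ)
    (hC0 : ∀ n, 0 ≤ C n)
    (hC : ∀ n, ∀ θ ∈ A n, ∀ r : ℝ, 0 < r → r < 1 → ‖F (r * pt θ)‖ ≤ C n) :
    ∀ Δ, MeasurableSet Δ → volume Δ = 0 → σ Δ = 0 := by
  intro Δ hΔ hΔ0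
  have hfin := finite_variation hF h0
  have hz : ∀ ξ : N, qf ξ (σ Δ) = 0 := by
    intro ξ
    set μ := qm (V := N →L[ℂ] N) σ (qf ξ) (fun Δ => qf_nonneg ξ (hF.1 Δ)) with hμ
    have hle := qm_le (V := N →L[ℂ] N) σ (qf ξ) (fun Δ => qf_nonneg ξ (hF.1 Δ))
    have hμf : IsFiniteMeasure μ := by
      refine ⟨lt_of_le_of_lt (hle Set.univ) ?_⟩
      rw [Measure.smul_apply, smul_eq_mul]
      exact ENNReal.mul_lt_top ENNReal.ofReal_lt_top (measure_lt_top _ _)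
    have h1 : ∀ n, μ (Δ ∩ A n) = 0 := by
      intro n
      refine restrict_le_hausdorff μ (A n) (hA n) (K := 8 * Real.pi * (C n * ‖ξ‖ ^ 2) + 1) ?_ ?_ hΔ hΔ0
      · have := Real.pi_pos
        have := hC0 n
        positivity
      · intro θ₀ hθ₀ d hd0 hd
        refine (ball_mass hF ξ μ hμ (hC0 n) θ₀ (hC n θ₀ hθ₀) hd0 hd).trans ?_
        apply ENNReal.ofReal_le_ofReal
        nlinarith
    have h2 : μ Δ = 0 := by
      have : Δ = ⋃ n, Δ ∩ A n := by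
        ext θ
        simp only [Set.mem_iUnion, Set.mem_inter_iff, exists_and_left]
        exact ⟨fun h => ⟨h, hcov θ⟩, fun h => h.1⟩
      rw [this]
      exact measure_iUnion_null h1
    rw [hμ, qm_apply (V := N →L[ℂ] N) σ (qf ξ) _ hΔ] at h2
    exact le_antisymm (ENNReal.ofReal_eq_zero.1 h2) (qf_nonneg ξ (hF.1 Δ))
  have hpos := hF.1 Δ
  have h3 : ∀ ξ : N, inner ℂ ((σ Δ) ξ) ξ = 0 := by
    intro ξ
    have h4 := hpos.inner_nonneg_left ξ
    rw [Complex.nonneg_iff] at h4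
    apply Complex.ext
    · have h5 := hz ξ
      rw [qf_apply, ← inner_conj_symm, Complex.conj_re] at h5
      simpa using h5
    · simpa using h4.2.symm
  have h4 : ((σ Δ : N →L[ℂ] N) : N →ₗ[ℂ] N) = 0 := (inner_map_self_eq_zero _).1 h3
  ext ξ
  exact congrArg (fun T : N →ₗ[ℂ] N => T ξ) h4

/-- norm bound for `F_ε` -/
lemma FF_bound [Nontrivial N] {χ : ℂ → M →L[ℂ] N} {ε : ℂ → N →L[ℂ] M} {z : ℂ} {q : ℝ} (hq : q < 1)
    (hχ : ‖χ z‖ ≤ q) (hε : ‖ε z‖ ≤ 1) : ‖FF χ ε z‖ ≤ 2 / (1 - q) := by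
  set b := (χ z).comp (ε z) with hb
  have hq0 : 0 ≤ q := (norm_nonneg _).trans hχ
  have hbn : ‖b‖ ≤ q := by
    calc ‖b‖ ≤ ‖χ z‖ * ‖ε z‖ := ContinuousLinearMap.opNorm_comp_le _ _
      _ ≤ q * 1 := by gcongr
      _ = q := mul_one q
  have hb1 : ‖b‖ < 1 := hbn.trans_lt hq
  have h1 : Ring.inverse (1 - b) = ∑' n : ℕ, b ^ n := by
    rw [NormedRing.inverse_one_sub b hb1]; rfl
  have h2 : ‖∑' n : ℕ, b ^ n‖ ≤ ‖(1 : N →L[ℂ] N)‖ - 1 + (1 - ‖b‖)⁻¹ := tsum_geometric_le_of_norm_lt_one b hb1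
  rw [norm_one, sub_self, zero_add] at h2
  have h3 : ‖(1 : N →L[ℂ] N) + b‖ ≤ 2 := by
    refine (norm_add_le _ _).trans ?_
    rw [norm_one]; linarith
  unfold FF
  rw [← hb, h1]
  calc ‖(1 + b) * ∑' n : ℕ, b ^ n‖ ≤ ‖1 + b‖ * ‖∑' n : ℕ, b ^ n‖ := norm_mul_le _ _
    _ ≤ 2 * (1 - ‖b‖)⁻¹ := by gcongr
    _ ≤ 2 * (1 - q)⁻¹ := by
        gcongr
    _ = 2 / (1 - q) := by rw [div_eq_mul_inv]

lemma FF_zero {χ : ℂ → M →L[ℂ] N} {ε : ℂ → N →L[ℂ] M} (h : χ 0 = 0) : FF χ ε 0 = 1 := by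
  unfold FF
  rw [h]
  simp

end Pool.Agent.Helper630.Szego
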