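import Pool.Agent.Helper630.Szego.Defs

open Finset MeasureTheory Filter Topology Complex

namespace Pool.Agent.Helper630.Szego

open scoped ENNReal

lemma pt_coe (x : ℝ) : pt (x : TT) = Complex.exp (x * I) := by
  unfold pt
  rw [AddCircle.toCircle_apply_mk, Circle.coe_exp]
  congr 2
  have : (2 * Real.pi) ≠ 0 := Real.two_pi_pos.ne'
  push_cast
  field_simp

lemma pt_norm (θ : TT) : ‖pt θ‖ = 1 := Circle.norm_coe _

lemma pt_continuous : Continuous pt := by
  unfold pt
  exact continuous_subtype_val.comp AddCircle.continuous_toCircle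

lemma exists_rep (θ : TT) : ∃ x : ℝ, (x : TT) = θ ∧ |x| = ‖θ‖ := by
  obtain ⟨y, rfl⟩ := QuotientAddGroup.mk_surjective θ
  refine ⟨y - round ((2 * Real.pi)⁻¹ * y) * (2 * Real.pi), ?_, ?_⟩
  · rw [AddCircle.coe_sub, sub_eq_self]
    have := AddCircle.coe_zsmul (p := 2 * Real.pi) (n := round ((2 * Real.pi)⁻¹ * y)) (x := 2 * Real.pi)
    rw [zsmul_eq_mul] at this
    rw [this, AddCircle.coe_period, smul_zero]
  · exact (AddCircle.norm_eq (2 * Real.pi)).symm

lemma pt_sub_one (θ : TT) : ‖pt θ - 1‖ ≤ ‖θ‖ := by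
  obtain ⟨x, hx, hn⟩ := exists_rep θ
  rw [← hn, ← hx, pt_coe, mul_comm]
  simpa using Real.norm_exp_I_mul_ofReal_sub_one_le (x := x)

lemma pt_dist (θ θ' : TT) : ‖pt θ - pt θ'‖ ≤ dist θ θ' := by
  have h1 : pt θ = pt (θ - θ') * pt θ' := by
    unfold pt
    rw [← Circle.coe_mul, ← AddCircle.toCircle_add, sub_add_cancel]
  have h2 : pt θ - pt θ' = (pt (θ - θ') - 1) * pt θ' := by rw [h1]; ring
  rw [h2, norm_mul, pt_norm, mul_one, dist_eq_norm]
  exact pt_sub_one _

lemma volume_null_hausdorff {Δ : Set TT} (hΔ : MeasurableSet Δ) (h : volume Δ = 0) : μH[1] Δ = 0 := by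
  have h1 := AddCircle.add_projection_respects_measure (T := 2 * Real.pi) 0 hΔ
  rw [h] at h1
  set S : Set ℝ := QuotientAddGroup.mk ⁻¹' Δ ∩ Set.Ioc 0 (0 + 2 * Real.pi) with hS
  have hL : LipschitzWith 1 (fun x : ℝ => (x : TT)) := by
    refine LipschitzWith.of_dist_le_mul fun x y => ?_
    rw [NNReal.coe_one, one_mul, dist_eq_norm, dist_eq_norm, ← AddCircle.coe_sub]
    exact QuotientAddGroup.norm_mk_le_norm
  have h2 := hL.hausdorffMeasure_image_le zero_le_one S
  rw [hausdorffMeasure_real, ← h1] at h2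
  have h3 : Δ ⊆ (fun x : ℝ => (x : TT)) '' S := by
    intro θ hθ
    obtain ⟨x, hx⟩ : ∃ x ∈ Set.Ioc (0:ℝ) (0 + 2 * Real.pi), (x : TT) = θ := by
      have := (AddCircle.coe_image_Ioc_eq (2 * Real.pi) 0)
      have hm : θ ∈ ((↑) : ℝ → AddCircle (2 * Real.pi)) '' Set.Ioc 0 (0 + 2 * Real.pi) := by rw [this]; trivial
      exact hm
    refine ⟨x, ⟨?_, hx.1⟩, hx.2⟩
    change (x : TT) ∈ Δ
    rw [hx.2]; exact hθ
  refine le_antisymm ((measure_mono h3).trans (h2.trans ?_)) bot_le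
  simp

section vm

variable {X V : Type*} [MeasurableSpace X] [NormedAddCommGroup V] [NormedSpace ℂ V]

/-- the scalar measure `ℓ (σ(·))` -/
noncomputable def qm (σ : VectorMeasure X V) (l : V →L[ℝ] ℝ) (hσ : ∀ Δ, 0 ≤ l (σ Δ)) : Measure X :=
  Measure.ofMeasurable (fun Δ _ => ENNReal.ofReal (l (σ Δ))) (by simp) (by
    intro f hf hd
    have h1 := (σ.m_iUnion hf hd).mapL l
    rw [← h1.tsum_eq]
    exact ENNReal.ofReal_tsum_of_nonneg (fun n => hσ _) h1.summable)

lemma qm_apply (σ : VectorMeasure X V) (l : V →L[ℝ] ℝ) (hσ : ∀ Δ, 0 ≤ l (σ Δ)) {Δ : Set X}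
    (hΔ : MeasurableSet Δ) : qm σ l hσ Δ = ENNReal.ofReal (l (σ Δ)) :=
  Measure.ofMeasurable_apply Δ hΔ

lemma qm_le (σ : VectorMeasure X V) (l : V →L[ℝ] ℝ) (hσ : ∀ Δ, 0 ≤ l (σ Δ)) :
    qm σ l hσ ≤ ENNReal.ofReal ‖l‖ • σ.variation := by
  refine Measure.le_iff.2 fun Δ hΔ => ?_
  rw [qm_apply σ l hσ hΔ, Measure.smul_apply, smul_eq_mul]
  calc ENNReal.ofReal (l (σ Δ)) ≤ ENNReal.ofReal (‖l‖ * ‖σ Δ‖) := by
        apply ENNReal.ofReal_le_ofReal
        exact (le_abs_self _).trans (l.le_opNorm (σ Δ))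
    _ = ENNReal.ofReal ‖l‖ * ‖σ Δ‖ₑ := by
        rw [ENNReal.ofReal_mul (norm_nonneg _), ofReal_norm, ofReal_norm]
    _ ≤ _ := by
        gcongr
        exact VectorMeasure.enorm_measure_le_variation σ Δ

variable [CompleteSpace V]

lemma qm_integral (σ : VectorMeasure X V) (l : V →L[ℝ] ℝ) (hσ : ∀ Δ, 0 ≤ l (σ Δ))
    (hc : ∀ (c : ℂ) Δ, l (c • σ Δ) = c.re * l (σ Δ)) {f : X → ℂ} (hf : Integrable f σ.variation) :
    l (σ.integral f (ContinuousLinearMap.lsmul ℝ ℂ)) = ∫ x, (f x).re ∂(qm σ l hσ) := by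
  have hle := qm_le σ l hσ
  have hint : ∀ {g : X → ℂ}, Integrable g σ.variation → Integrable g (qm σ l hσ) := by
    intro g hg
    exact (hg.smul_measure ENNReal.ofReal_ne_top).mono_measure hle
  have hintr : ∀ {g : X → ℂ}, Integrable g σ.variation → Integrable (fun x => (g x).re) (qm σ l hσ) :=
    fun hg => (hint hg).re
  have hac : qm σ l hσ ≪ σ.variation := Measure.absolutelyContinuous_of_le_smul hle
  refine Integrable.induction (P := fun f : X → ℂ => l (σ.integral f (ContinuousLinearMap.lsmul ℝ ℂ)) =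
    ∫ x, (f x).re ∂(qm σ l hσ)) ?_ ?_ ?_ ?_ hf
  · intro c s hs hsf
    have h1 : σ.integral (s.indicator fun _ => c) (ContinuousLinearMap.lsmul ℝ ℂ) = c • σ s := by
      rw [VectorMeasure.integral_eq_setToFun, setToFun_indicator_const _ hs hsf.ne]
      rfl
    have h2 : ∀ x, ((s.indicator (fun _ => c) x).re : ℝ) = s.indicator (fun _ => c.re) x := by
      intro x
      by_cases hx : x ∈ s <;> simp [hx]
    rw [h1, hc]
    simp_rw [h2]
    rw [integral_indicator_const _ hs, smul_eq_mul, measureReal_def, qm_apply σ l hσ hs,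
      ENNReal.toReal_ofReal (hσ s)]
    ring
  · intro f g _ hf hg h1 h2
    rw [VectorMeasure.integral_add hf hg, map_add, h1, h2, ← integral_add (hintr hf) (hintr hg)]
    rfl
  · refine isClosed_eq ?_ ?_
    · exact l.continuous.comp VectorMeasure.continuous_integral
    · have hL : LipschitzWith (Real.toNNReal ‖l‖) (fun f : X →₁[σ.variation] ℂ => ∫ x, (f x).re ∂(qm σ l hσ)) := by
        refine LipschitzWith.of_dist_le_mul fun f g => ?_
        have hf := L1.integrable_coeFn f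
        have hg := L1.integrable_coeFn g
        rw [Real.dist_eq, dist_eq_norm, L1.norm_eq_integral_norm, ← integral_sub (hintr hf) (hintr hg),
          Real.coe_toNNReal _ (norm_nonneg _)]
        have h1 : |∫ x, (f x).re - (g x).re ∂(qm σ l hσ)| ≤ ∫ x, ‖f x - g x‖ ∂(qm σ l hσ) := by
          rw [← Real.norm_eq_abs]
          refine norm_integral_le_of_norm_le (hint (hf.sub hg)).norm (ae_of_all _ fun x => ?_)
          rw [← Complex.sub_re, Real.norm_eq_abs]
          exact Complex.abs_re_le_norm _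
        have h2 : ∫ x, ‖f x - g x‖ ∂(qm σ l hσ) ≤ ∫ x, ‖f x - g x‖ ∂(ENNReal.ofReal ‖l‖ • σ.variation) :=
          integral_mono_measure hle (ae_of_all _ fun x => norm_nonneg _)
            ((hf.sub hg).norm.smul_measure ENNReal.ofReal_ne_top)
        have h3 : ∫ x, ‖f x - g x‖ ∂(σ.variation) = ∫ x, ‖(f - g) x‖ ∂(σ.variation) := by
          refine integral_congr_ae ?_
          filter_upwards [Lp.coeFn_sub f g] with x hx
          rw [hx]; rfl
        rw [integral_smul_measure, ENNReal.toReal_ofReal (norm_nonneg _), smul_eq_mul, h3] at h2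
        exact h1.trans h2
      exact hL.continuous
  · intro f g hfg hf h1
    rw [← VectorMeasure.integral_congr_ae hfg, h1]
    refine integral_congr_ae ?_
    filter_upwards [hac.ae_le hfg] with x hx
    rw [hx]

end vm

end Pool.Agent.Helper630.Szego
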