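import Mathlib

open MeasureTheory Filter Topology

namespace Pool.Agent.Helper630.Szego

open scoped ENNReal
open MeasureTheory.VectorMeasure

/-- the length of the circle is positive -/
instance twoPiPos : Fact (0 < 2 * Real.pi) := ⟨Real.two_pi_pos⟩

/-- The unit circle `𝕋`, described by the angle modulo `2 π`; its standard measure `volume` is the
Lebesgue (arc length) measure, of total mass `2 π`. -/
abbrev TT : Type := AddCircle (2 * Real.pi)

/-- The point `ζ = exp (i θ)` of the unit circle in `ℂ` with angle `θ`. -/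
noncomputable def pt (θ : TT) : ℂ := (AddCircle.toCircle θ : ℂ)

variable {N M : Type*} [NormedAddCommGroup N] [InnerProductSpace ℂ N] [CompleteSpace N]
  [NormedAddCommGroup M] [InnerProductSpace ℂ M] [CompleteSpace M]

/-- The class `𝔹(M,N)`: holomorphic in the open unit disc, with values contractions `M → N`. -/
def InB (χ : ℂ → M →L[ℂ] N) : Prop :=
  DifferentiableOn ℂ χ (Metric.ball 0 1) ∧ ∀ z ∈ Metric.ball (0:ℂ) 1, ‖χ z‖ ≤ 1

/-- The class `𝔹⁰(M,N)`: those `χ` in `𝔹(M,N)` with `χ(0) = 0`. -/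
def InB0 (χ : ℂ → M →L[ℂ] N) : Prop := InB χ ∧ χ 0 = 0

/-- `F_ε(z) = (I + χ(z) ε(z)) (I - χ(z) ε(z))⁻¹`. -/
noncomputable def FF (χ : ℂ → M →L[ℂ] N) (ε : ℂ → N →L[ℂ] M) (z : ℂ) : N →L[ℂ] N :=
  (1 + (χ z).comp (ε z)) * Ring.inverse (1 - (χ z).comp (ε z))

/-- `σ` is a nonnegative operator valued measure on the circle which represents `F`:
`F(z) = ∫ (ζ + z) / (ζ - z) dσ(ζ) / (2 π)` for all `|z| < 1`. (It exists and is unique when `F` is
holomorphic with nonnegative real part and `F(0) = I`.) -/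
def IsHerglotz (F : ℂ → N →L[ℂ] N) (σ : VectorMeasure TT (N →L[ℂ] N)) : Prop :=
  (∀ Δ, (σ Δ).IsPositive) ∧ ∀ z ∈ Metric.ball (0:ℂ) 1,
    F z = ((2 * Real.pi)⁻¹ : ℝ) • ∫ᵛ θ, (pt θ + z) / (pt θ - z) ∂[ContinuousLinearMap.lsmul ℝ ℂ; σ]

/-- The class `𝔹_a(M,N)`: those `χ` in `𝔹⁰(M,N)` such that for every `ε` in `𝔹(N,M)` the measure
`σ_ε` representing `F_ε` is absolutely continuous with respect to Lebesgue measure. -/
def InBa (χ : ℂ → M →L[ℂ] N) : Prop :=
  InB0 χ ∧ ∀ ε : ℂ → N →L[ℂ] M, InB ε → ∀ σ : VectorMeasure TT (N →L[ℂ] N), IsHerglotz (FF χ ε) σ →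
    ∀ Δ, MeasurableSet Δ → volume Δ = 0 → σ Δ = 0

/-- `X` is the boundary function of `χ`: the radial limit of `χ` at almost every point. -/
def IsBoundary (χ : ℂ → M →L[ℂ] N) (X : TT → M →L[ℂ] N) : Prop :=
  ∀ᵐ θ : TT, Tendsto (fun r : ℝ => χ (r * pt θ)) (𝓝[<] 1) (𝓝 (X θ))

/-- The determinant `det (I_M - X* X)` (a real number). -/
noncomputable def szDet (X : M →L[ℂ] N) : ℝ :=
  (ContinuousLinearMap.det (1 - (ContinuousLinearMap.adjoint X).comp X)).re

end Pool.Agent.Helper630.Szego
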