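import Pool.Agent.Helper630.Szego.HalfPlane

open Finset MeasureTheory Filter Topology Complex

namespace Pool.Agent.Helper630.Szego

/-- the Cayley map onto the right half plane -/
noncomputable def cay (z : ℂ) : ℂ := (1 + z) / (1 - z)

lemma cay_re (z : ℂ) : (cay z).re = (1 - ‖z‖ ^ 2) / ‖1 - z‖ ^ 2 := by
  unfold cay
  rw [Complex.div_re, Complex.sq_norm, Complex.sq_norm, Complex.normSq_apply, Complex.normSq_apply]
  simp only [add_re, one_re, sub_re, add_im, one_im, sub_im]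
  by_cases h : (1 - z.re) * (1 - z.re) + (0 - z.im) * (0 - z.im) = 0
  · rw [h]; simp
  · field_simp
    ring

lemma cay_im (z : ℂ) : (cay z).im = 2 * z.im / ‖1 - z‖ ^ 2 := by
  unfold cay
  rw [Complex.div_im, Complex.sq_norm, Complex.normSq_apply]
  simp only [add_re, one_re, sub_re, add_im, one_im, sub_im]
  by_cases h : (1 - z.re) * (1 - z.re) + (0 - z.im) * (0 - z.im) = 0
  · rw [h]; simp
  · field_simp
    ring

lemma cay_re_pos {z : ℂ} (hz : ‖z‖ < 1) : 0 < (cay z).re := by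
  rw [cay_re]
  have h1 : (1 : ℂ) - z ≠ 0 := by
    intro h
    have : z = 1 := by linear_combination -h
    rw [this] at hz; simp at hz
  have h2 : 0 < ‖1 - z‖ := norm_pos_iff.2 h1
  have h3 : 0 < 1 - ‖z‖ ^ 2 := by nlinarith [norm_nonneg z]
  positivity

/-- the function `h` -/
noncomputable def hh (z : ℂ) : ℂ := Complex.exp (-gg (cay z))

lemma hh_norm (z : ℂ) : ‖hh z‖ = Real.exp (-(gg (cay z)).re) := by
  unfold hh
  rw [Complex.norm_exp, Complex.neg_re]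

lemma hh_norm_le (n : ℕ) {z : ℂ} (hz : 0 ≤ (cay z).re) (hi : (cay z).im ≤ n) : ‖hh z‖ ≤ Real.exp (-(1 / 2 : ℝ) ^ n) := by
  rw [hh_norm]
  exact Real.exp_le_exp.2 (neg_le_neg (gg_re_ge n hz hi))

lemma hh_lt_one {z : ℂ} (hz : 0 ≤ (cay z).re) : ‖hh z‖ < 1 := by
  obtain ⟨n, hn⟩ := exists_nat_ge (cay z).im
  refine (hh_norm_le n hz hn).trans_lt ?_
  rw [Real.exp_lt_one_iff]
  have : (0:ℝ) < (1 / 2) ^ n := by positivity
  linarith

lemma hh_differentiableOn : DifferentiableOn ℂ hh (Metric.ball 0 1) := by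
  have h1 : DifferentiableOn ℂ cay (Metric.ball 0 1) := by
    intro z hz
    unfold cay
    refine DifferentiableAt.differentiableWithinAt ?_
    refine DifferentiableAt.div (by fun_prop) (by fun_prop) ?_
    intro h
    have : z = 1 := by linear_combination -h
    rw [this, mem_ball_zero_iff] at hz; simp at hz
  have h2 : Set.MapsTo cay (Metric.ball 0 1) {w | 0 < w.re} := fun z hz => cay_re_pos (mem_ball_zero_iff.1 hz)
  exact ((gg_differentiableOn.comp h1 h2).neg).cexp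

/-- points on the circle -/
lemma cay_radial_im {ζ : ℂ} (hζ : ‖ζ‖ = 1) : ∃ n : ℕ, ∀ r : ℝ, 0 < r → r < 1 → (cay (r * ζ)).im ≤ n := by
  by_cases h1 : ζ = 1
  · refine ⟨0, fun r _ _ => ?_⟩
    rw [cay_im, h1]
    simp
  · have h2 : (0:ℝ) < ‖1 - ζ‖ := norm_pos_iff.2 (sub_ne_zero.2 (Ne.symm h1))
    obtain ⟨n, hn⟩ := exists_nat_ge (2 * |ζ.im| / ‖1 - ζ‖ ^ 2)
    refine ⟨n, fun r hr0 hr1 => le_trans ?_ hn⟩
    have h3 : r * ‖1 - ζ‖ ^ 2 ≤ ‖1 - r * ζ‖ ^ 2 := by
      have e1 : ζ.re * ζ.re + ζ.im * ζ.im = 1 := by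
        have := Complex.sq_norm ζ
        rw [hζ, Complex.normSq_apply] at this
        linarith
      rw [Complex.sq_norm, Complex.sq_norm, Complex.normSq_apply, Complex.normSq_apply]
      simp only [sub_re, one_re, sub_im, one_im, re_ofReal_mul, im_ofReal_mul]
      nlinarith [sq_nonneg (1 - r)]
    have h4 : 0 < ‖1 - r * ζ‖ ^ 2 := lt_of_lt_of_le (by positivity) h3
    rw [cay_im, im_ofReal_mul, div_le_div_iff₀ h4 (by positivity)]
    calc 2 * (r * ζ.im) * ‖1 - ζ‖ ^ 2 = 2 * ζ.im * (r * ‖1 - ζ‖ ^ 2) := by ring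
      _ ≤ 2 * |ζ.im| * (r * ‖1 - ζ‖ ^ 2) := by
          gcongr
          exact le_abs_self _
      _ ≤ 2 * |ζ.im| * ‖1 - r * ζ‖ ^ 2 := by gcongr

/-- radial limits of `h` -/
lemma hh_radial {ζ : ℂ} (hζ : ‖ζ‖ = 1) (h1 : ζ ≠ 1) : Tendsto (fun r : ℝ => hh (r * ζ)) (𝓝[<] 1) (𝓝 (hh ζ)) := by
  have hne : (1 : ℂ) - ζ ≠ 0 := sub_ne_zero.2 (Ne.symm h1)
  have hre : (cay ζ).re = 0 := by rw [cay_re, hζ]; simp
  have hc : ContinuousAt cay ζ := by
    unfold cay
    exact ContinuousAt.div (by fun_prop) (by fun_prop) hne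
  have hr : Tendsto (fun r : ℝ => (r : ℂ) * ζ) (𝓝[<] 1) (𝓝 ζ) := by
    have : Continuous (fun r : ℝ => (r : ℂ) * ζ) := by fun_prop
    have h := this.tendsto 1
    rw [Complex.ofReal_one, one_mul] at h
    exact h.mono_left nhdsWithin_le_nhds
  have hcr : Tendsto (fun r : ℝ => cay ((r : ℂ) * ζ)) (𝓝[<] 1) (𝓝[{w | 0 ≤ w.re}] (cay ζ)) := by
    refine tendsto_nhdsWithin_iff.2 ⟨hc.tendsto.comp hr, ?_⟩
    have hev1 : ∀ᶠ s : ℝ in 𝓝[<] 1, s < 1 := self_mem_nhdsWithin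
    have hev2 : ∀ᶠ s : ℝ in 𝓝[<] 1, 0 < s := mem_nhdsWithin_of_mem_nhds (lt_mem_nhds one_pos)
    filter_upwards [hev1, hev2] with r hr1 hr0
    refine (cay_re_pos ?_).le
    rw [norm_mul, hζ, mul_one, Complex.norm_real, Real.norm_of_nonneg hr0.le]
    exact hr1
  have hg : Tendsto (fun r : ℝ => gg (cay ((r : ℂ) * ζ))) (𝓝[<] 1) (𝓝 (gg (cay ζ))) :=
    (gg_continuousOn (cay ζ) hre.ge).tendsto.comp hcr
  exact (Complex.continuous_exp.tendsto _).comp hg.neg

/-- boundary size of `h` near the point `1` -/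
lemma hh_boundary {θ : ℝ} (h0 : 0 < θ) (h1 : θ < 1) :
    (1 / θ - 1) * Real.log 2 - Real.log 12 ≤ -Real.log (1 - ‖hh (Complex.exp (θ * I))‖ ^ 2) := by
  have hζ : ‖Complex.exp (θ * I)‖ = 1 := Complex.norm_exp_ofReal_mul_I θ
  set ζ := Complex.exp (θ * I) with hζd
  have hcos : ζ.re = Real.cos θ := Complex.exp_ofReal_mul_I_re θ
  have hsin : ζ.im = Real.sin θ := Complex.exp_ofReal_mul_I_im θ
  have hcl : Real.cos θ < 1 := by
    have := Real.cos_lt_cos_of_nonneg_of_le_pi (x := 0) (y := θ) le_rfl (by linarith [Real.pi_gt_three]) h0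
    simpa using this
  have hn : ‖1 - ζ‖ ^ 2 = 2 * (1 - Real.cos θ) := by
    rw [Complex.sq_norm, Complex.normSq_apply]
    simp only [sub_re, one_re, sub_im, one_im, hcos, hsin]
    nlinarith [Real.sin_sq_add_cos_sq θ]
  have hre : (cay ζ).re = 0 := by rw [cay_re, hζ]; simp
  set y := (cay ζ).im with hy
  have hyv : y = Real.sin θ / (1 - Real.cos θ) := by
    rw [hy, cay_im, hsin, hn]
    have : 1 - Real.cos θ ≠ 0 := by linarith
    field_simp
  have hy1 : 1 / θ ≤ y := by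
    rw [hyv, div_le_div_iff₀ h0 (by linarith)]
    have hs : θ - θ ^ 3 / 6 < Real.sin θ := Real.sin_gt_sub_cube h0
    have hc := Real.one_sub_sq_div_two_le_cos (x := θ)
    nlinarith [sq_nonneg θ, pow_pos h0 3, pow_pos h0 2]
  have hcay : cay ζ = (y : ℂ) * I := by
    apply Complex.ext
    · rw [hre]; simp
    · simp [hy]
  set m := ⌊y⌋₊ with hm
  have hy0 : 0 ≤ y := le_trans (by positivity) hy1
  have hmy : (m : ℝ) ≤ y := Nat.floor_le hy0
  have hmy2 : y < m + 1 := Nat.lt_floor_add_one y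
  have hG := gg_re_le m hmy
  rw [← hcay] at hG
  have hG0 : 0 < (gg (cay ζ)).re := by
    obtain ⟨n, hn⟩ := exists_nat_ge (cay ζ).im
    have := gg_re_ge n hre.ge hn
    have h2 : (0:ℝ) < (1 / 2) ^ n := by positivity
    linarith
  have hh1 : ‖hh ζ‖ ^ 2 = Real.exp (-(2 * (gg (cay ζ)).re)) := by
    rw [hh_norm, ← Real.exp_nat_mul]
    congr 1
    push_cast; ring
  have hlt : ‖hh ζ‖ ^ 2 < 1 := by
    rw [hh1, Real.exp_lt_one_iff]; linarith
  have hle : 1 - ‖hh ζ‖ ^ 2 ≤ 12 * (1 / 2 : ℝ) ^ m := by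
    rw [hh1]
    have := Real.add_one_le_exp (-(2 * (gg (cay ζ)).re))
    linarith
  have hlog : Real.log (1 - ‖hh ζ‖ ^ 2) ≤ Real.log 12 - m * Real.log 2 := by
    calc Real.log (1 - ‖hh ζ‖ ^ 2) ≤ Real.log (12 * (1 / 2 : ℝ) ^ m) := Real.log_le_log (by linarith) hle
      _ = Real.log 12 - m * Real.log 2 := by
          rw [Real.log_mul (by norm_num) (by positivity), Real.log_pow, one_div, Real.log_inv]
          ring
  have hl2 : 0 < Real.log 2 := Real.log_pos (by norm_num)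
  have : (1 / θ - 1) ≤ m := by linarith
  nlinarith

end Pool.Agent.Helper630.Szego
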