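import Pool.Agent.Helper630.Szego.AbsCont

open Finset MeasureTheory Filter Topology Complex

namespace Pool.Agent.Helper630.Szego

open scoped ENNReal

variable {N M : Type*} [NormedAddCommGroup N] [InnerProductSpace ℂ N] [CompleteSpace N]
  [NormedAddCommGroup M] [InnerProductSpace ℂ M] [CompleteSpace M]

/-- the rank one operator -/
noncomputable def PP (e : M) (f : N) : M →L[ℂ] N := (innerSL ℂ e : M →L[ℂ] ℂ).smulRight f

lemma PP_apply (e : M) (f : N) (x : M) : PP e f x = inner ℂ e x • f := rfl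

lemma PP_norm (e : M) (f : N) (he : ‖e‖ = 1) (hf : ‖f‖ = 1) : ‖PP e f‖ ≤ 1 := by
  refine ContinuousLinearMap.opNorm_le_bound _ zero_le_one fun x => ?_
  rw [PP_apply, norm_smul, hf, mul_one, one_mul]
  calc ‖inner ℂ e x‖ ≤ ‖e‖ * ‖x‖ := norm_inner_le_norm _ _
    _ = ‖x‖ := by rw [he, one_mul]

/-- the counterexample -/
noncomputable def chi (e : M) (f : N) (z : ℂ) : M →L[ℂ] N := (z * hh z) • PP e f

lemma chi_norm (e : M) (f : N) (he : ‖e‖ = 1) (hf : ‖f‖ = 1) (z : ℂ) (hz : ‖z‖ ≤ 1) : ‖chi e f z‖ ≤ ‖hh z‖ := by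
  unfold chi
  rw [norm_smul, norm_mul]
  have h := PP_norm e f he hf
  calc ‖z‖ * ‖hh z‖ * ‖PP e f‖ ≤ 1 * ‖hh z‖ * 1 := by gcongr
    _ = _ := by ring

lemma chi_inB0 (e : M) (f : N) (he : ‖e‖ = 1) (hf : ‖f‖ = 1) : InB0 (chi e f) := by
  refine ⟨⟨?_, fun z hz => ?_⟩, ?_⟩
  · unfold chi
    exact (differentiableOn_id.mul hh_differentiableOn).smul_const _
  · have hz1 := mem_ball_zero_iff.1 hz
    exact (chi_norm e f he hf z hz1.le).trans (hh_lt_one (cay_re_pos hz1).le).le
  · unfold chi; simp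

lemma cay_continuousAt {z : ℂ} (hz : z ≠ 1) : ContinuousAt cay z := by
  unfold cay
  exact ContinuousAt.div (by fun_prop) (by fun_prop) (sub_ne_zero.2 (Ne.symm hz))

theorem chi_inBa [Nontrivial N] (e : M) (f : N) (he : ‖e‖ = 1) (hf : ‖f‖ = 1) : InBa (chi e f) := by
  refine ⟨chi_inB0 e f he hf, fun ε hε σ hσ => ?_⟩
  set A : ℕ → Set TT := fun n => {θ | ∀ r : ℝ, 0 < r → r < 1 → (cay (r * pt θ)).im ≤ n} with hA
  refine ac_main hσ (FF_zero (chi_inB0 e f he hf).2) A (fun n => ?_) (fun θ => ?_)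
    (fun n => 2 / (1 - Real.exp (-(1 / 2 : ℝ) ^ n))) (fun n => ?_) (fun n θ hθ r hr0 hr1 => ?_)
  · have : A n = ⋂ r : ℝ, ⋂ _ : 0 < r, ⋂ _ : r < 1, {θ | (cay (r * pt θ)).im ≤ n} := by
      ext θ; simp [hA]
    rw [this]
    refine IsClosed.measurableSet (isClosed_iInter fun r => isClosed_iInter fun hr0 => isClosed_iInter fun hr1 => ?_)
    refine isClosed_le ?_ continuous_const
    refine Complex.continuous_im.comp ?_
    rw [continuous_iff_continuousAt]
    intro θ
    have hc : ContinuousAt (fun θ : TT => (r : ℂ) * pt θ) θ := (continuous_const.mul pt_continuous).continuousAt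
    refine ContinuousAt.comp (f := fun θ : TT => (r : ℂ) * pt θ) (g := cay) (cay_continuousAt ?_) hc
    intro h
    have : ‖(r : ℂ) * pt θ‖ = 1 := by rw [h]; simp
    rw [norm_mul, pt_norm, mul_one, Complex.norm_real, Real.norm_of_nonneg hr0.le] at this
    linarith
  · exact cay_radial_im (pt_norm θ)
  · have : Real.exp (-(1 / 2 : ℝ) ^ n) < 1 := by
      rw [Real.exp_lt_one_iff]
      have : (0:ℝ) < (1 / 2) ^ n := by positivity
      linarith
    have : 0 < 1 - Real.exp (-(1 / 2 : ℝ) ^ n) := by linarith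
    positivity
  · have hq : Real.exp (-(1 / 2 : ℝ) ^ n) < 1 := by
      rw [Real.exp_lt_one_iff]
      have : (0:ℝ) < (1 / 2) ^ n := by positivity
      linarith
    have hn : ‖(r : ℂ) * pt θ‖ = r := by
      rw [norm_mul, pt_norm, mul_one, Complex.norm_real, Real.norm_of_nonneg hr0.le]
    have hn1 : ‖(r : ℂ) * pt θ‖ < 1 := by rw [hn]; exact hr1
    refine FF_bound hq ?_ (hε.2 _ (mem_ball_zero_iff.2 hn1))
    exact (chi_norm e f he hf _ hn1.le).trans (hh_norm_le n (cay_re_pos hn1).le (hθ r hr0 hr1))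

lemma ae_ne_zero : ∀ᵐ θ : TT, pt θ ≠ 1 := by
  have h1 : (volume : Measure TT) {θ | pt θ = 1} = 0 := by
    have hm : MeasurableSet {θ : TT | pt θ = 1} := (isClosed_eq pt_continuous continuous_const).measurableSet
    rw [AddCircle.add_projection_respects_measure (T := 2 * Real.pi) 0 hm]
    refine measure_mono_null (t := {2 * Real.pi}) ?_ (by simp)
    rintro x ⟨hx1, hx2⟩
    have h2 : pt (x : TT) = 1 := hx1
    rw [pt_coe, Complex.exp_eq_one_iff] at h2
    obtain ⟨n, hn⟩ := h2
    have h3 : x = n * (2 * Real.pi) := by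
      have : (x : ℂ) = ((n * (2 * Real.pi) : ℝ) : ℂ) := by
        have h4 : (x : ℂ) * I = ((n * (2 * Real.pi) : ℝ) : ℂ) * I := by rw [hn]; push_cast; ring
        exact mul_right_cancel₀ I_ne_zero h4
      exact_mod_cast this
    have hp := Real.pi_pos
    rw [Set.mem_Ioc, zero_add] at hx2
    have h5 : 0 < n := by
      have : (0:ℝ) < n := by
        by_contra hcon
        push Not at hcon
        nlinarith [hx2.1]
      exact_mod_cast this
    have h6 : n ≤ 1 := by
      have : (n:ℝ) ≤ 1 := by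
        by_contra hcon
        push Not at hcon
        nlinarith [hx2.2]
      exact_mod_cast this
    have h7 : n = 1 := by omega
    rw [Set.mem_singleton_iff, h3, h7]; simp
  exact ae_iff.2 (by simpa using h1)

/-- the boundary function -/
noncomputable def XX (e : M) (f : N) (θ : TT) : M →L[ℂ] N := (pt θ * hh (pt θ)) • PP e f

lemma chi_boundary (e : M) (f : N) : IsBoundary (chi e f) (XX e f) := by
  filter_upwards [ae_ne_zero] with θ hθ
  unfold chi XX
  refine Tendsto.smul_const ?_ _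
  refine Tendsto.mul ?_ (hh_radial (pt_norm θ) hθ)
  have : Continuous (fun r : ℝ => (r : ℂ) * pt θ) := by fun_prop
  have h := this.tendsto 1
  rw [Complex.ofReal_one, one_mul] at h
  exact h.mono_left nhdsWithin_le_nhds

lemma det_calc [FiniteDimensional ℂ M] {ι : Type*} [Fintype ι] [DecidableEq ι] (b : OrthonormalBasis ι ℂ M) (i₀ : ι) (f : N) (hf : ‖f‖ = 1) (c : ℂ) :
    szDet (c • PP (b i₀) f) = 1 - ‖c‖ ^ 2 := by
  have h1 : ∀ x : M, (1 - (ContinuousLinearMap.adjoint (c • PP (b i₀) f)).comp (c • PP (b i₀) f) : M →L[ℂ] M) x =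
      x - ((‖c‖ ^ 2 : ℝ) : ℂ) • (inner ℂ (b i₀) x • b i₀) := by
    intro x
    have h2 : (ContinuousLinearMap.adjoint (c • PP (b i₀) f)) ((c • PP (b i₀) f) x) =
        ((‖c‖ ^ 2 : ℝ) : ℂ) • (inner ℂ (b i₀) x • b i₀) := by
      refine ext_inner_right ℂ fun y => ?_
      rw [ContinuousLinearMap.adjoint_inner_left, smul_apply, smul_apply, PP_apply, PP_apply]
      simp only [inner_smul_left, inner_smul_right]
      rw [inner_self_eq_norm_sq_to_K, hf]
      have h3 := Complex.conj_mul' c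
      simp only [Complex.conj_ofReal]
      push_cast
      rw [← h3]
      simp
      ring
    rw [sub_apply, ContinuousLinearMap.comp_apply, h2]
    rfl
  unfold szDet ContinuousLinearMap.det
  set T : M →ₗ[ℂ] M := ((1 - (ContinuousLinearMap.adjoint (c • PP (b i₀) f)).comp (c • PP (b i₀) f) : M →L[ℂ] M) : M →ₗ[ℂ] M) with hT
  have h4 : LinearMap.toMatrix b.toBasis b.toBasis T = Matrix.diagonal (fun i => if i = i₀ then (1 - ((‖c‖ ^ 2 : ℝ) : ℂ)) else 1) := by
    ext i j
    rw [LinearMap.toMatrix_apply]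
    have h5 : T (b.toBasis j) = b j - ((‖c‖ ^ 2 : ℝ) : ℂ) • (inner ℂ (b i₀) (b j) • b i₀) := by
      rw [OrthonormalBasis.coe_toBasis]
      exact h1 (b j)
    rw [h5, OrthonormalBasis.coe_toBasis_repr_apply, map_sub, map_smul, map_smul]
    simp only [PiLp.sub_apply, PiLp.smul_apply, smul_eq_mul, OrthonormalBasis.repr_self, PiLp.single_apply]
    rw [Matrix.diagonal_apply]
    have h6 := orthonormal_iff_ite.1 b.orthonormal i₀ j
    rw [h6]
    by_cases hij : i = j
    · subst hij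
      by_cases hi : i = i₀
      · subst hi; simp
      · simp [hi, Ne.symm hi]
    · by_cases hj : j = i₀
      · subst hj; simp [hij]
      · simp [hij, Ne.symm hj]
  rw [← LinearMap.det_toMatrix b.toBasis, h4, Matrix.det_diagonal, Finset.prod_ite_eq' Finset.univ i₀, if_pos (Finset.mem_univ _)]
  rw [Complex.sub_re, Complex.one_re, Complex.ofReal_re]

end Pool.Agent.Helper630.Szego
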