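import Pool.Agent.Helper630.Szego.Example

open Finset MeasureTheory Filter Topology Complex

namespace Pool.Agent.Helper630.Szego

open scoped ENNReal

lemma inv_not_integrable : ¬ IntegrableOn (fun x : ℝ => x⁻¹) (Set.Ioo 0 1) := by
  intro h
  have h1 : IntervalIntegrable (fun x : ℝ => x⁻¹) volume 0 1 := by
    rw [intervalIntegrable_iff_integrableOn_Ioo_of_le zero_le_one]
    exact h
  rw [intervalIntegrable_inv_iff] at h1
  rcases h1 with h1 | h1
  · norm_num at h1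
  · exact h1 (by simp)

lemma log_lintegral : ∫⁻ θ : TT, ENNReal.ofReal (-Real.log (1 - ‖hh (pt θ)‖ ^ 2)) = ∞ := by
  by_contra hcon
  have h1 := AddCircle.lintegral_preimage (2 * Real.pi) 0 (fun θ : TT => ENNReal.ofReal (-Real.log (1 - ‖hh (pt θ)‖ ^ 2)))
  rw [← h1] at hcon
  set g : ℝ → ℝ := fun x => (1 / x - 1) * Real.log 2 - Real.log 12 with hg
  have hsub : Set.Ioo (0:ℝ) 1 ⊆ Set.Ioc 0 (0 + 2 * Real.pi) := by
    intro x hx
    exact ⟨hx.1, by linarith [hx.2, Real.pi_gt_three]⟩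
  have h2 : ∫⁻ x in Set.Ioo (0:ℝ) 1, ENNReal.ofReal (g x) ≤
      ∫⁻ x in Set.Ioc (0:ℝ) (0 + 2 * Real.pi), ENNReal.ofReal (-Real.log (1 - ‖hh (pt (x : TT))‖ ^ 2)) := by
    refine le_trans (setLIntegral_mono' measurableSet_Ioo fun x hx => ?_) (lintegral_mono_set hsub)
    apply ENNReal.ofReal_le_ofReal
    rw [pt_coe]
    exact hh_boundary hx.1 hx.2
  have h3 : ∫⁻ x in Set.Ioo (0:ℝ) 1, ENNReal.ofReal (g x) < ∞ := lt_of_le_of_lt h2 (lt_top_iff_ne_top.2 hcon)
  have hgm : Measurable g := by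
    rw [hg]; fun_prop
  have hl12 : 0 ≤ Real.log 12 := Real.log_nonneg (by norm_num)
  have hl2 : 0 < Real.log 2 := Real.log_pos (by norm_num)
  -- g + log 12 is nonnegative and integrable
  have h4 : IntegrableOn (fun x => g x + Real.log 12) (Set.Ioo 0 1) := by
    refine ⟨(hgm.add_const _).aestronglyMeasurable, ?_⟩
    rw [hasFiniteIntegral_iff_ofReal]
    · calc ∫⁻ x in Set.Ioo (0:ℝ) 1, ENNReal.ofReal (g x + Real.log 12) ≤
          ∫⁻ x in Set.Ioo (0:ℝ) 1, (ENNReal.ofReal (g x) + ENNReal.ofReal (Real.log 12)) :=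
            lintegral_mono fun x => ENNReal.ofReal_add_le
        _ = (∫⁻ x in Set.Ioo (0:ℝ) 1, ENNReal.ofReal (g x)) + ∫⁻ x in Set.Ioo (0:ℝ) 1, ENNReal.ofReal (Real.log 12) :=
            lintegral_add_right _ measurable_const
        _ < ∞ := by
            rw [setLIntegral_const, Real.volume_Ioo]
            exact ENNReal.add_lt_top.2 ⟨h3, ENNReal.mul_lt_top ENNReal.ofReal_lt_top ENNReal.ofReal_lt_top⟩
    · refine (ae_restrict_iff' measurableSet_Ioo).2 (ae_of_all _ fun x hx => ?_)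
      simp only [Pi.zero_apply, hg]
      have : 1 ≤ 1 / x := by rw [le_div_iff₀ hx.1]; linarith [hx.2]
      nlinarith
  apply inv_not_integrable
  have h5 : IntegrableOn (fun x => (Real.log 2)⁻¹ * (g x + Real.log 12) + 1) (Set.Ioo 0 1) :=
    (h4.const_mul _).add (integrableOn_const (by simp))
  refine h5.congr_fun (fun x hx => ?_) measurableSet_Ioo
  simp only [hg]
  field_simp
  ring

variable {N M : Type*} [NormedAddCommGroup N] [InnerProductSpace ℂ N] [CompleteSpace N]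
  [NormedAddCommGroup M] [InnerProductSpace ℂ M] [CompleteSpace M]

theorem main (N M : Type*) [NormedAddCommGroup N] [InnerProductSpace ℂ N] [CompleteSpace N] [FiniteDimensional ℂ N]
    [NormedAddCommGroup M] [InnerProductSpace ℂ M] [CompleteSpace M] [FiniteDimensional ℂ M]
    (hN : 0 < Module.finrank ℂ N) (hNM : Module.finrank ℂ N ≤ Module.finrank ℂ M) :
    ∃ χ : ℂ → M →L[ℂ] N, InBa χ ∧ ∃ X : TT → M →L[ℂ] N, IsBoundary χ X ∧ (∀ᵐ θ, 0 < szDet (X θ)) ∧
      ∫⁻ θ, ENNReal.ofReal (-Real.log (szDet (X θ))) = ∞ := by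
  classical
  have hnt : Nontrivial N := Module.nontrivial_of_finrank_pos hN
  have hM : 0 < Module.finrank ℂ M := by omega
  set b := stdOrthonormalBasis ℂ M with hb
  set i₀ : Fin (Module.finrank ℂ M) := ⟨0, hM⟩ with hi
  obtain ⟨f, hf⟩ : ∃ f : N, ‖f‖ = 1 := ⟨stdOrthonormalBasis ℂ N ⟨0, hN⟩, (stdOrthonormalBasis ℂ N).orthonormal.1 _⟩
  refine ⟨chi (b i₀) f, chi_inBa (b i₀) f (b.orthonormal.1 i₀) hf, XX (b i₀) f, chi_boundary _ _, ?_, ?_⟩
  · refine ae_of_all _ fun θ => ?_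
    unfold XX
    rw [det_calc b i₀ f hf, norm_mul, pt_norm, one_mul]
    have h1 : (cay (pt θ)).re = 0 := by rw [cay_re, pt_norm]; simp
    have h2 := hh_lt_one h1.ge
    nlinarith [norm_nonneg (hh (pt θ))]
  · have : ∀ θ, szDet (XX (b i₀) f θ) = 1 - ‖hh (pt θ)‖ ^ 2 := by
      intro θ
      unfold XX
      rw [det_calc b i₀ f hf, norm_mul, pt_norm, one_mul]
    simp_rw [this]
    exact log_lintegral

end Pool.Agent.Helper630.Szego
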