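import Mathlib

open Finset MeasureTheory Filter Topology Complex

namespace Pool.Agent.Helper630.Szego

/-- `tt u` is the square root of `i u` in the closed first quadrant (for `Re u ≥ 0`) -/
noncomputable def tt (u : ℂ) : ℂ := Complex.exp ((Real.pi / 4 : ℝ) * I) * u ^ ((2 : ℕ)⁻¹ : ℂ)

lemma tt_sq (u : ℂ) : tt u ^ 2 = I * u := by
  unfold tt
  rw [mul_pow, Complex.cpow_nat_inv_pow u (by norm_num), ← Complex.exp_nat_mul]
  congr 1
  have : ((2 : ℕ) : ℂ) * (((Real.pi / 4 : ℝ) : ℂ) * I) = (Real.pi / 2 : ℂ) * I := by push_cast; ring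
  rw [this, Complex.exp_pi_div_two_mul_I]

lemma tt_norm_sq (u : ℂ) : ‖tt u‖ ^ 2 = ‖u‖ := by
  rw [← norm_pow, tt_sq, norm_mul, norm_I, one_mul]

lemma tt_repr (u : ℂ) (hu : u ≠ 0) : tt u = (Real.exp (Real.log ‖u‖ / 2) : ℝ) *
    Complex.exp (((Real.pi / 4 + arg u / 2 : ℝ) : ℂ) * I) := by
  unfold tt
  rw [Complex.cpow_def_of_ne_zero hu, ← Complex.exp_add, Complex.ofReal_exp, ← Complex.exp_add]
  congr 1
  rw [Complex.log]
  push_cast
  ring

lemma tt_nonneg {u : ℂ} (hu : 0 ≤ u.re) : 0 ≤ (tt u).re ∧ 0 ≤ (tt u).im := by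
  by_cases h0 : u = 0
  · subst h0
    simp [tt]
  · have harg := Complex.abs_arg_le_pi_div_two_iff.2 hu
    rw [abs_le] at harg
    rw [tt_repr u h0]
    rw [Complex.re_ofReal_mul, Complex.im_ofReal_mul, Complex.exp_ofReal_mul_I_re, Complex.exp_ofReal_mul_I_im]
    constructor
    · refine mul_nonneg (Real.exp_pos _).le (Real.cos_nonneg_of_mem_Icc ⟨by linarith, by linarith⟩)
    · refine mul_nonneg (Real.exp_pos _).le (Real.sin_nonneg_of_nonneg_of_le_pi (by linarith) (by linarith [Real.pi_pos]))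

lemma tt_re_sq (u : ℂ) : (tt u).re ^ 2 - (tt u).im ^ 2 = - u.im := by
  have h := congrArg Complex.re (tt_sq u)
  rw [sq, Complex.mul_re, Complex.mul_re] at h
  simp at h
  linarith

lemma tt_re_mul_im (u : ℂ) : 2 * ((tt u).re * (tt u).im) = u.re := by
  have h := congrArg Complex.im (tt_sq u)
  rw [sq, Complex.mul_im, Complex.mul_im] at h
  simp at h
  linarith

lemma tt_re_ge {u : ℂ} (hu : 0 ≤ u.re) (hi : u.im ≤ -1) : 1 ≤ (tt u).re := by
  have h1 := tt_re_sq u
  have h2 := (tt_nonneg hu).1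
  nlinarith [sq_nonneg (tt u).im]

lemma tt_re_zero {u : ℂ} (hu : u.re = 0) (hi : 0 ≤ u.im) : (tt u).re = 0 := by
  have h1 := tt_re_sq u
  have h3 := tt_re_mul_im u
  have h2 := tt_nonneg hu.ge
  rw [hu] at h3
  have h4 : (tt u).re * (tt u).im = 0 := by linarith
  rcases mul_eq_zero.1 h4 with h | h
  · exact h
  · rw [h] at h1
    nlinarith [h2.1, sq_nonneg (tt u).re]

lemma tt_re_le (u : ℂ) : (tt u).re ^ 2 ≤ ‖u‖ := by
  have h1 := tt_norm_sq u
  rw [Complex.sq_norm, Complex.normSq_apply] at h1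
  nlinarith [sq_nonneg (tt u).im]

lemma tt_continuousAt {u : ℂ} (hu : 0 ≤ u.re) : ContinuousAt tt u := by
  unfold tt
  refine continuousAt_const.mul ?_
  exact Complex.continuousAt_cpow_const_of_re_pos (Or.inl hu) (by norm_num)

lemma tt_differentiableAt {u : ℂ} (hu : 0 < u.re) : DifferentiableAt ℂ tt u := by
  unfold tt
  refine (differentiableAt_const _).mul ?_
  exact differentiableAt_id.cpow_const (Or.inl hu)

/-- the terms of the series -/
noncomputable def gt (n : ℕ) (w : ℂ) : ℂ := ((1 / 2 : ℝ) ^ n : ℝ) * tt (w - (n + 1 : ℝ) * I)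

/-- the function `g` on the right half plane -/
noncomputable def gg (w : ℂ) : ℂ := ∑' n, gt n w

lemma gt_sub_re (n : ℕ) (w : ℂ) : (w - (n + 1 : ℝ) * I).re = w.re := by
  simp

lemma gt_sub_im (n : ℕ) (w : ℂ) : (w - (n + 1 : ℝ) * I).im = w.im - (n + 1) := by
  simp

lemma gt_norm_le (n : ℕ) {w : ℂ} {R : ℝ} (hw : ‖w‖ ≤ R) : ‖gt n w‖ ≤ (1 / 2 : ℝ) ^ n * (R + n + 2) := by
  unfold gt
  rw [norm_mul, Complex.norm_real, Real.norm_of_nonneg (by positivity)]
  gcongr
  have h1 := tt_norm_sq (w - (n + 1 : ℝ) * I)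
  have h2 : ‖w - ((n + 1 : ℝ) : ℂ) * I‖ ≤ R + (n + 1) := by
    refine (norm_sub_le _ _).trans ?_
    rw [norm_mul, Complex.norm_real, norm_I, mul_one, Real.norm_of_nonneg (by positivity)]
    linarith
  have hR : 0 ≤ R := (norm_nonneg _).trans hw
  have h3 : ‖tt (w - ((n + 1 : ℝ) : ℂ) * I)‖ ^ 2 ≤ (R + n + 2) ^ 2 := by
    rw [h1]
    refine h2.trans ?_
    have : (1:ℝ) ≤ R + n + 2 := by linarith [Nat.cast_nonneg (α := ℝ) n]
    nlinarith
  exact le_of_sq_le_sq h3 (by positivity)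

lemma gt_summable (R : ℝ) : Summable (fun n : ℕ => (1 / 2 : ℝ) ^ n * (R + n + 2)) := by
  have h1 := summable_pow_mul_geometric_of_norm_lt_one 1 (r := (1 / 2 : ℝ)) (by norm_num)
  have h2 := (summable_geometric_of_lt_one (r := (1 / 2 : ℝ)) (by norm_num) (by norm_num)).mul_left (R + 2)
  refine (h1.add h2).congr fun n => ?_
  ring

lemma gg_summable (w : ℂ) : Summable (fun n => gt n w) :=
  Summable.of_norm_bounded (gt_summable ‖w‖) fun n => gt_norm_le n le_rfl

lemma gg_re (w : ℂ) : (gg w).re = ∑' n, (gt n w).re := by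
  unfold gg
  exact Complex.re_tsum (gg_summable w)

lemma gt_re (n : ℕ) (w : ℂ) : (gt n w).re = (1 / 2 : ℝ) ^ n * (tt (w - (n + 1 : ℝ) * I)).re := by
  unfold gt
  rw [Complex.re_ofReal_mul]

lemma gt_re_nonneg (n : ℕ) {w : ℂ} (hw : 0 ≤ w.re) : 0 ≤ (gt n w).re := by
  rw [gt_re]
  exact mul_nonneg (by positivity) (tt_nonneg (by rw [gt_sub_re]; exact hw)).1

lemma gg_re_summable (w : ℂ) : Summable (fun n => (gt n w).re) :=
  (Complex.hasSum_re (gg_summable w).hasSum).summable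

/-- lower bound -/
lemma gg_re_ge (n : ℕ) {w : ℂ} (hw : 0 ≤ w.re) (hi : w.im ≤ n) : (1 / 2 : ℝ) ^ n ≤ (gg w).re := by
  rw [gg_re]
  refine le_trans ?_ ((gg_re_summable w).le_tsum n fun j _ => gt_re_nonneg j hw)
  rw [gt_re]
  have := tt_re_ge (u := w - (n + 1 : ℝ) * I) (by rw [gt_sub_re]; exact hw) (by rw [gt_sub_im]; linarith)
  have h2 : (0:ℝ) < (1 / 2) ^ n := by positivity
  nlinarith

/-- upper bound on the boundary -/
lemma gg_re_le (m : ℕ) {y : ℝ} (hy : (m : ℝ) ≤ y) : (gg (y * I)).re ≤ (1 / 2 : ℝ) ^ m * 6 := by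
  rw [gg_re]
  have h0 : ∀ n, n < m → (gt n (y * I)).re = 0 := by
    intro n hn
    rw [gt_re, tt_re_zero, mul_zero]
    · rw [gt_sub_re]; simp
    · rw [gt_sub_im]
      simp
      have : ((n + 1 : ℕ) : ℝ) ≤ m := by exact_mod_cast hn
      push_cast at this
      linarith
  rw [← (gg_re_summable (y * I)).sum_add_tsum_nat_add m, Finset.sum_eq_zero (fun n hn => h0 n (Finset.mem_range.1 hn)), zero_add]
  have hs : Summable (fun j : ℕ => (1 / 2 : ℝ) ^ m * ((1 / 2 : ℝ) ^ j * (0 + j + 2))) := (gt_summable 0).mul_left _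
  have hle : ∀ j : ℕ, (gt (j + m) (y * I)).re ≤ (1 / 2 : ℝ) ^ m * ((1 / 2 : ℝ) ^ j * (0 + j + 2)) := by
    intro j
    rw [gt_re, pow_add, mul_comm ((1 / 2 : ℝ) ^ j), mul_assoc]
    gcongr
    by_cases hc : y ≤ ((j + m : ℕ) : ℝ) + 1
    · have h1 := tt_re_sq ((y : ℂ) * I - (((j + m : ℕ) : ℝ) + 1 : ℝ) * I)
      have h2 := tt_re_mul_im ((y : ℂ) * I - (((j + m : ℕ) : ℝ) + 1 : ℝ) * I)
      have h3 := tt_nonneg (u := (y : ℂ) * I - (((j + m : ℕ) : ℝ) + 1 : ℝ) * I) (by rw [gt_sub_re]; simp)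
      rw [gt_sub_re] at h2
      rw [gt_sub_im] at h1
      simp only [mul_re, ofReal_re, I_re, mul_zero, ofReal_im, I_im, mul_one, sub_self, mul_im, add_zero, zero_mul] at h1 h2
      set a := (tt ((y : ℂ) * I - (((j + m : ℕ) : ℝ) + 1 : ℝ) * I)).re with ha
      set b := (tt ((y : ℂ) * I - (((j + m : ℕ) : ℝ) + 1 : ℝ) * I)).im with hb
      have h4 : a ^ 2 ≤ (0 + j + 2) ^ 2 := by
        have hab : a * b = 0 := by linarith
        rcases mul_eq_zero.1 hab with h | h
        · rw [h, zero_pow two_ne_zero]; positivity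
        · rw [h] at h1
          have : a ^ 2 ≤ j + 1 := by
            push_cast at h1
            nlinarith
          nlinarith [Nat.cast_nonneg (α := ℝ) j]
      exact le_of_sq_le_sq h4 (by positivity)
    · rw [tt_re_zero]
      · positivity
      · rw [gt_sub_re]; simp
      · rw [gt_sub_im]
        simp only [mul_im, ofReal_re, I_im, mul_one, ofReal_im, I_re, mul_zero, add_zero]
        linarith
  have hs2 : Summable (fun j => (gt (j + m) (y * I)).re) := (summable_nat_add_iff m).2 (gg_re_summable _)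
  refine (hs2.tsum_le_tsum hle hs).trans ?_
  rw [tsum_mul_left]
  gcongr
  have h5 : ∑' j : ℕ, (1 / 2 : ℝ) ^ j * (0 + j + 2) = 6 := by
    have e1 : HasSum (fun j : ℕ => (j : ℝ) * (1 / 2 : ℝ) ^ j) 2 := by
      have := hasSum_coe_mul_geometric_of_norm_lt_one (r := (1 / 2 : ℝ)) (by norm_num)
      norm_num at this ⊢
      exact this
    have e2 : HasSum (fun j : ℕ => (1 / 2 : ℝ) ^ j) 2 := hasSum_geometric_two
    have e3 := e1.add (e2.mul_left 2)
    norm_num at e3
    rw [← e3.tsum_eq]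
    refine tsum_congr fun j => ?_
    norm_num
    ring
  rw [h5]

lemma gg_differentiableOn : DifferentiableOn ℂ gg {w | 0 < w.re} := by
  intro w hw
  have hopen : IsOpen ({w : ℂ | 0 < w.re} ∩ Metric.ball 0 (‖w‖ + 1)) :=
    (isOpen_lt continuous_const Complex.continuous_re).inter Metric.isOpen_ball
  have h := differentiableOn_tsum_of_summable_norm (F := gt) (gt_summable (‖w‖ + 1)) (fun n => ?_) hopen
    (fun n v hv => gt_norm_le n (mem_ball_zero_iff.1 hv.2).le)
  · have hmem : w ∈ ({w : ℂ | 0 < w.re} ∩ Metric.ball 0 (‖w‖ + 1)) := ⟨hw, by simp⟩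
    exact (h.differentiableAt (hopen.mem_nhds hmem)).differentiableWithinAt
  · intro v hv
    have h1 : DifferentiableAt ℂ tt (v - (n + 1 : ℝ) * I) := tt_differentiableAt (by rw [gt_sub_re]; exact hv.1)
    unfold gt
    exact (((differentiableAt_const _).mul (h1.comp v ((differentiableAt_id).sub_const _)))).differentiableWithinAt

lemma gg_continuousOn : ContinuousOn gg {w | 0 ≤ w.re} := by
  intro w hw
  have h := continuousOn_tsum (f := gt) (s := {w : ℂ | 0 ≤ w.re} ∩ Metric.ball 0 (‖w‖ + 1)) (fun n => ?_)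
    (gt_summable (‖w‖ + 1)) (fun n v hv => gt_norm_le n (mem_ball_zero_iff.1 hv.2).le)
  · have hmem : w ∈ ({w : ℂ | 0 ≤ w.re} ∩ Metric.ball 0 (‖w‖ + 1)) := ⟨hw, by simp⟩
    have h2 := h w hmem
    exact (continuousWithinAt_inter (Metric.isOpen_ball.mem_nhds hmem.2)).1 h2
  · intro v hv
    have h1 : ContinuousAt tt (v - (n + 1 : ℝ) * I) := tt_continuousAt (by rw [gt_sub_re]; exact hv.1)
    have h2 : ContinuousAt (fun v : ℂ => v - (n + 1 : ℝ) * I) v := by fun_prop
    have h3 : ContinuousAt (fun v : ℂ => tt (v - (n + 1 : ℝ) * I)) v := ContinuousAt.comp (g := tt) h1 h2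
    exact (continuousAt_const.mul h3).continuousWithinAt

end Pool.Agent.Helper630.Szego
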