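import Pool.Agent.Helper630.Szego.Disc
import Pool.Agent.Helper630.Szego.Circle

open Finset MeasureTheory Filter Topology Complex

namespace Pool.Agent.Helper630.Szego

open scoped ENNReal
open MeasureTheory.VectorMeasure

variable {N M : Type*} [NormedAddCommGroup N] [InnerProductSpace ℂ N] [CompleteSpace N]
  [NormedAddCommGroup M] [InnerProductSpace ℂ M] [CompleteSpace M]

lemma kernel_re (ζ z : ℂ) (hζ : ‖ζ‖ = 1) : ((ζ + z) / (ζ - z)).re = (1 - ‖z‖ ^ 2) / ‖ζ - z‖ ^ 2 := by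
  have h := congrFun (poissonKernel_eq_re_herglotzRieszKernel (c := 0) (w := z)) ζ
  simp only [Function.comp, poissonKernel_def, herglotzRieszKernel_def, sub_zero] at h
  rw [← h, hζ]; norm_num

lemma pt_sub_ne {z : ℂ} (hz : ‖z‖ < 1) (θ : TT) : pt θ - z ≠ 0 := by
  intro h
  have : pt θ = z := by linear_combination h
  have h2 := pt_norm θ
  rw [this] at h2; linarith

lemma kernel_cont {z : ℂ} (hz : ‖z‖ < 1) : Continuous (fun θ : TT => (pt θ + z) / (pt θ - z)) :=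
  (pt_continuous.add continuous_const).div (pt_continuous.sub continuous_const) (pt_sub_ne hz)

/-- the quadratic form functional -/
noncomputable def qf (ξ : N) : (N →L[ℂ] N) →L[ℝ] ℝ :=
  (Complex.reCLM.comp (((innerSL ℂ ξ : N →L[ℂ] ℂ).restrictScalars ℝ).comp
    ((ContinuousLinearMap.apply ℂ N ξ : (N →L[ℂ] N) →L[ℂ] N).restrictScalars ℝ)))

lemma qf_apply (ξ : N) (A : N →L[ℂ] N) : qf ξ A = (inner ℂ ξ (A ξ)).re := rfl

lemma qf_nonneg (ξ : N) {A : N →L[ℂ] N} (hA : A.IsPositive) : 0 ≤ qf ξ A := by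
  rw [qf_apply]
  exact hA.re_inner_nonneg_right ξ

lemma qf_le (ξ : N) (A : N →L[ℂ] N) : qf ξ A ≤ ‖A‖ * ‖ξ‖ ^ 2 := by
  rw [qf_apply]
  calc (inner ℂ ξ (A ξ)).re ≤ ‖inner ℂ ξ (A ξ)‖ := Complex.re_le_norm _
    _ ≤ ‖ξ‖ * ‖A ξ‖ := norm_inner_le_norm _ _
    _ ≤ ‖ξ‖ * (‖A‖ * ‖ξ‖) := by gcongr; exact A.le_opNorm ξ
    _ = _ := by ring

lemma qf_smul (ξ : N) {A : N →L[ℂ] N} (hA : A.IsPositive) (c : ℂ) : qf ξ (c • A) = c.re * qf ξ A := by
  rw [qf_apply, qf_apply, smul_apply, inner_smul_right]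
  have h : (inner ℂ ξ (A ξ)).im = 0 := by
    have := hA.inner_nonneg_right ξ
    rw [Complex.nonneg_iff] at this
    exact this.2.symm
  rw [Complex.mul_re, h, mul_zero, sub_zero]

lemma qf_integral (ξ : N) (σ : VectorMeasure TT (N →L[ℂ] N)) (hσ : ∀ Δ, (σ Δ).IsPositive) {f : TT → ℂ}
    (hf : Integrable f (VectorMeasure.variation (V := N →L[ℂ] N) σ)) :
    qf ξ (∫ᵛ θ, f θ ∂[ContinuousLinearMap.lsmul ℝ ℂ; σ]) =
      ∫ θ, (f θ).re ∂(qm (V := N →L[ℂ] N) σ (qf ξ) (fun Δ => qf_nonneg ξ (hσ Δ))) := by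
  exact qm_integral (V := N →L[ℂ] N) σ (qf ξ) (fun Δ => qf_nonneg ξ (hσ Δ)) (fun c Δ => qf_smul ξ (hσ Δ) c) hf

lemma finite_variation [Nontrivial N] {F : ℂ → N →L[ℂ] N} {σ : VectorMeasure TT (N →L[ℂ] N)} (hF : IsHerglotz F σ)
    (h0 : F 0 = 1) : IsFiniteMeasure (VectorMeasure.variation (V := N →L[ℂ] N) σ) := by
  have h1 := hF.2 0 (by simp)
  by_contra hcon
  have h2 : ¬ Integrable (fun θ : TT => (pt θ + 0) / (pt θ - 0)) (VectorMeasure.variation (V := N →L[ℂ] N) σ) := by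
    intro h
    apply hcon
    have h3 : (fun θ : TT => (pt θ + 0) / (pt θ - 0)) = fun _ => (1:ℂ) := by
      funext θ
      have : pt θ ≠ 0 := by
        intro h; have := pt_norm θ; rw [h] at this; simp at this
      rw [add_zero, sub_zero, div_self this]
    rw [h3, integrable_const_iff] at h
    exact h.resolve_left one_ne_zero
  have h3 : (∫ᵛ θ, (pt θ + 0) / (pt θ - 0) ∂[ContinuousLinearMap.lsmul ℝ ℂ; σ] : N →L[ℂ] N) = 0 :=
    VectorMeasure.integral_undef (F := N →L[ℂ] N) h2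
  rw [h3, smul_zero, h0] at h1
  exact one_ne_zero h1

lemma kernel_integrable {z : ℂ} (hz : ‖z‖ < 1) (μ : Measure TT) [IsFiniteMeasure μ] :
    Integrable (fun θ : TT => (pt θ + z) / (pt θ - z)) μ := by
  obtain ⟨C, hC⟩ := (isCompact_univ (X := TT)).exists_bound_of_continuousOn (kernel_cont hz).continuousOn
  exact Integrable.of_bound (kernel_cont hz).aestronglyMeasurable C (ae_of_all _ fun θ => hC θ (Set.mem_univ _))

end Pool.Agent.Helper630.Szego
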